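import Pool.Agent.Helper91_PP.Statements

/-!
# Module D: extension by distances and the folding function
-/

namespace Helper77_PP

open H91PP

theorem bfs : BfsStatement := by
  classical
  intro V Γ B ℓ hℓ
  let A : V → Set ℕ := fun x => {n | ∃ b ∈ B, ∃ p : Γ.Walk b x, n = ℓ b + p.length}
  have hub : ∀ b ∈ B, ∀ x, ∀ p : Γ.Walk b x, sInf (A x) ≤ ℓ b + p.length :=
    fun b hb x p => Nat.sInf_le ⟨b, hb, p, rfl⟩
  have hmem : ∀ x, (∃ b ∈ B, Γ.Reachable b x) → sInf (A x) ∈ A x := by
    rintro x ⟨b, hb, ⟨p⟩⟩
    exact Nat.sInf_mem ⟨_, b, hb, p, rfl⟩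
  have hlip : ∀ x y, Γ.Adj x y → (∃ b ∈ B, Γ.Reachable b x) → sInf (A y) ≤ sInf (A x) + 1 := by
    intro x y hxy hr
    obtain ⟨b, hb, p, hp⟩ := hmem x hr
    have := hub b hb y (p.append (SimpleGraph.Walk.cons hxy SimpleGraph.Walk.nil))
    rw [SimpleGraph.Walk.length_append] at this
    simp at this
    omega
  refine ⟨fun x => sInf (A x), ⟨?_, hlip, ?_, hub⟩⟩
  · intro x hx
    refine le_antisymm (by simpa using hub x hx x SimpleGraph.Walk.nil) ?_
    obtain ⟨b, hb, p, hp⟩ := hmem x ⟨x, hx, SimpleGraph.Reachable.refl x⟩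
    show ℓ x ≤ sInf (A x)
    rw [hp]
    exact hℓ b hb x hx p
  · intro x hr hxB
    obtain ⟨b, hb, p, hp⟩ := hmem x hr
    have hbx : b ≠ x := fun h => hxB (h ▸ hb)
    cases hq : p.reverse with
    | nil => exact absurd rfl hbx
    | cons hadj q =>
      rename_i y
      refine ⟨y, hadj, ?_⟩
      have hlen : p.length = q.length + 1 := by
        rw [← SimpleGraph.Walk.length_reverse, hq]
        simp
      have h1 := hub b hb y q.reverse
      rw [SimpleGraph.Walk.length_reverse] at h1
      have h2 := hlip y x hadj.symm ⟨b, hb, ⟨q.reverse⟩⟩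
      show sInf (A x) = sInf (A y) + 1
      omega

theorem fold_spec : FoldStatement := by
  intro M hM
  have hlt : ∀ t, t % (2 * M) < 2 * M := fun t => Nat.mod_lt _ (by omega)
  refine ⟨?_, ?_, ?_, ?_⟩
  · intro t
    unfold fold
    have := hlt t
    split_ifs <;> omega
  · intro t ht
    unfold fold
    rw [Nat.mod_eq_of_lt (by omega)]
    simp [ht]
  · intro t
    unfold fold
    have h1 := hlt t
    have h2 := hlt (t + 1)
    have h3 : (t + 1) % (2 * M) = t % (2 * M) + 1 ∨
        (t % (2 * M) = 2 * M - 1 ∧ (t + 1) % (2 * M) = 0) := by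
      rcases Nat.lt_or_ge (t % (2 * M) + 1) (2 * M) with h | h
      · left
        rw [Nat.add_mod, Nat.mod_eq_of_lt (show 1 < 2 * M by omega), Nat.mod_eq_of_lt h]
      · right
        have h4 : t % (2 * M) = 2 * M - 1 := by omega
        refine ⟨h4, ?_⟩
        rw [Nat.add_mod, Nat.mod_eq_of_lt (show 1 < 2 * M by omega), h4,
          show 2 * M - 1 + 1 = 2 * M by omega, Nat.mod_self]
    rcases h3 with h3 | ⟨h3, h4⟩
    · rw [h3]
      split_ifs <;> omega
    · rw [h3, h4]
      split_ifs <;> omega
  · intro t t' hdiv hfold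
    -- write `t = q M + s`, `t' = q M + s'`
    have e1 := Nat.div_add_mod t M
    have e2 := Nat.div_add_mod t' M
    have l1 := Nat.mod_lt t (show 0 < M by omega)
    have l2 := Nat.mod_lt t' (show 0 < M by omega)
    rw [hdiv] at e1
    set q := t' / M with hq
    set s := t % M with hs
    set s' := t' % M with hs'
    -- the residue modulo `2 M` depends on the parity of `q`
    have key : ∀ r, r < M → (M * q + r) % (2 * M) = if q % 2 = 0 then r else M + r := by
      intro r hr
      have hq2 := Nat.div_add_mod q 2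
      set p := q / 2
      split_ifs with hpar
      · have : M * q + r = r + 2 * M * p := by
          rw [← hq2, hpar]
          ring
        rw [this, Nat.add_mul_mod_self_left, Nat.mod_eq_of_lt (by omega)]
      · have hpar' : q % 2 = 1 := by omega
        have : M * q + r = (M + r) + 2 * M * p := by
          rw [← hq2, hpar']
          ring
        rw [this, Nat.add_mul_mod_self_left, Nat.mod_eq_of_lt (by omega)]
    unfold fold at hfold
    rw [← e1, ← e2, key s l1, key s' l2] at hfold
    have : s = s' := by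
      split_ifs at hfold <;> omega
    rw [← e1, ← e2, this]

end Helper77_PP
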